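import Pool.Agent.Lib.MP_1a91b9_nuX.BR.Ser

/-!
# The L-series of a form in terms of the series of `ψbar_F c`

`RB W B s` is the product of the Euler factors of `W` at the places in the finite set `B`; `B` is the set of the
places above `n`.
-/

set_option autoImplicit false

namespace Pool.Agent.Lib.MP_1a91b9_nuX.BR

open NumberField IsDedekindDomain Pool.Agent.Lib.MP_1a91b9_nuT Pool.Agent.Lib.MP_1a91b9_nt
open Pool.Agent.Lib.MP_1a91b9_nuT.S4 (Lf Over differentiable_euler entire_eq)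
open Pool.Agent.Lib.MP_1a91b9_nuT.PL (Ab)
open Pool.Agent.Lib.MP_1a91b9_nuX.PG
open Pool.Agent.Lib.MP_1a91b9_nuX.PA (pC bC_eq)
open Pool.Agent.Lib.MP_1a91b9_nuX.AN (psbC)
open Pool.Agent.Lib.MP_1a91b9_nuX.TC (RC LGoodT)
open Pool.Agent.Lib.MP_1a91b9_nuX.LG

universe u

section
variable {N : Type u} [Field N] [NumberField N] (W : WeierstrassCurve N)
  (B : Finset (HeightOneSpectrum (𝓞 N)))

/-- the product of the Euler factors of `W` at the places in `B` -/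
noncomputable def RB (s : ℂ) : ℂ :=
  ∏ v ∈ B, Polynomial.aeval ((Ideal.absNorm v.asIdeal : ℂ) ^ (-s)) (locPoly W v)

/-- its value at `1` -/
noncomputable def rB : ℚ :=
  ∏ v ∈ B, Polynomial.aeval ((Ideal.absNorm v.asIdeal : ℚ)⁻¹) (locPoly W v)

theorem RB_diff : Differentiable ℂ (RB W B) := by
  refine Differentiable.fun_finsetProd fun v _ => ?_
  have h1 : Differentiable ℂ fun x : ℂ => Polynomial.aeval x (locPoly W v) :=
    Polynomial.differentiable_aeval (locPoly W v)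
  have h2 : Differentiable ℂ fun s : ℂ => (Ideal.absNorm v.asIdeal : ℂ) ^ (-s) := by
    refine differentiable_neg.const_cpow (Or.inl ?_)
    have := Ideal.absNorm_ne_zero_iff_mem_nonZeroDivisors.mpr
      (mem_nonZeroDivisors_iff_ne_zero.mpr v.ne_bot)
    exact_mod_cast this
  exact h1.comp h2

theorem RB_one : RB W B 1 = ((rB W B : ℚ) : ℂ) := by
  rw [RB, rB, Rat.cast_prod]
  refine Finset.prod_congr rfl fun v _ => ?_
  have h1 := Polynomial.aeval_algebraMap_apply ℂ ((Ideal.absNorm v.asIdeal : ℚ)⁻¹) (locPoly W v)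
  have h2 : algebraMap ℚ ℂ ((Ideal.absNorm v.asIdeal : ℚ)⁻¹) =
      (Ideal.absNorm v.asIdeal : ℂ) ^ (-(1 : ℂ)) := by
    rw [Complex.cpow_neg_one, map_inv₀, map_natCast]
  rw [h2] at h1
  exact h1

end

private theorem main_conj {A : ValuationSubring ℂ} {z : ℂ}
    (h : (A.comap (starRingEnd ℂ)).valuation z = 1) : A.valuation ((starRingEnd ℂ) z) = 1 := by
  have h0 : z ≠ 0 := by
    rintro rfl
    rw [map_zero] at h
    exact zero_ne_one h
  have h1 : z ∈ A.comap (starRingEnd ℂ) := (ValuationSubring.valuation_le_one_iff _ _).1 h.le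
  have h2 : z⁻¹ ∈ A.comap (starRingEnd ℂ) := by
    refine (ValuationSubring.valuation_le_one_iff _ _).1 ?_
    rw [map_inv₀, h, inv_one]
  rw [ValuationSubring.mem_comap] at h1 h2
  refine le_antisymm ((ValuationSubring.valuation_le_one_iff _ _).2 h1) ?_
  have h3 := (ValuationSubring.valuation_le_one_iff _ _).2 h2
  rw [map_inv₀, map_inv₀] at h3
  have h4 : A.valuation ((starRingEnd ℂ) z) ≠ 0 := by
    rw [Valuation.ne_zero_iff]
    exact (map_ne_zero _).2 h0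
  exact (inv_le_one₀ (zero_lt_iff.2 h4)).1 h3

private theorem main_cpow (n : ℕ) (s : ℂ) :
    (starRingEnd ℂ) ((n : ℂ) ^ (-(starRingEnd ℂ) s)) = (n : ℂ) ^ (-s) := by
  rw [← map_neg, Complex.cpow_conj _ _ (by
    rw [Complex.natCast_arg]
    exact Real.pi_pos.ne), Complex.conj_natCast, Complex.conj_conj]

variable [CD] [HC]

section
variable {N : Type u} [Field N] [NumberField N] [Algebra K N] {W : WeierstrassCurve N}
  {m n : Ideal (𝓞 N)} {ps : Ideal (𝓞 N) → 𝓞 K} {c : Ideal (𝓞 N) → ℂ}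

omit [HC] in
theorem RB_K (h : FDat N W m ps) (B : Finset (HeightOneSpectrum (𝓞 N))) (s : ℂ) :
    RB W B s = (starRingEnd ℂ) (∏ v ∈ B, (1 - bC ps v.asIdeal *
      (Ideal.absNorm v.asIdeal : ℂ) ^ (-(starRingEnd ℂ) s))) *
      ∏ v ∈ B, (1 - bC ps v.asIdeal * (Ideal.absNorm v.asIdeal : ℂ) ^ (-s)) := by
  rw [RB, map_prod, ← Finset.prod_mul_distrib]
  refine Finset.prod_congr rfl fun v _ => ?_
  rw [loc_C h v, map_sub, map_one, map_mul, main_cpow, ← bC_conj]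

/-- **The L-series over a field which contains `K`.** -/
theorem br_K (h : FDat N W m ps) (hn : n ≠ ⊥) (hc : TwD n ps c) {ℓ : ℕ} [Fact ℓ.Prime]
    (hl : ∀ v : HeightOneSpectrum (𝓞 N), n ≤ v.asIdeal → ¬ m ≤ v.asIdeal →
      (ℓ : 𝓞 N) ∉ v.asIdeal ∧ IsCoprime (ps v.asIdeal - 1) (ℓ : 𝓞 K)) :
    ∃ (R : ℂ → ℂ) (ρ : ℚ), Differentiable ℂ R ∧ (∀ s : ℂ, 2 < s.re → W.LSeries s * R s =
      (starRingEnd ℂ) (Lf (fun I => psbC N I * c I) ((starRingEnd ℂ) s)) *
        Lf (fun I => psbC N I * c I) s) ∧ R 1 = (ρ : ℂ) ∧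
      ∀ A : ValuationSubring ℂ, Ab ℓ A → A.valuation (ρ : ℂ) = 1 := by
  obtain ⟨B, hB⟩ := exists_B hn
  refine ⟨RB W B, rB W B, RB_diff W B, fun s hs => ?_, RB_one W B, fun A hA => ?_⟩
  · rw [LSeries_K' h s (by linarith), RB_K h B s, Lf_tw h hc hB s hs,
      Lf_tw h hc hB ((starRingEnd ℂ) s) (by rw [Complex.conj_re]; exact hs), Lf_pC, map_mul]
    ring
  · rw [← RB_one, RB_K h B 1, map_one, map_mul, map_prod A.valuation, map_prod (starRingEnd ℂ),
      map_prod A.valuation]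
    have h1 : ∀ A : ValuationSubring ℂ, Ab ℓ A → ∀ v ∈ B, A.valuation (1 - bC ps v.asIdeal *
        (Ideal.absNorm v.asIdeal : ℂ) ^ (-(1 : ℂ))) = 1 := fun A hA v hv =>
      val_eul hA h v (hl v ((hB v).1 hv))
    rw [Finset.prod_eq_one fun v hv => h1 A hA v hv, mul_one]
    exact Finset.prod_eq_one fun v hv => main_conj (h1 _ hA.comap v hv)

/-- the series of the primitive character is entire and does not vanish at `1` -/
theorem goodP_tw (h : FDat N W m ps) (hn : n ≠ ⊥) (hc : TwD n ps c)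
    (hcont : ∃ L : ℂ → ℂ, Differentiable ℂ L ∧ ∀ s : ℂ, 2 < s.re → L s = Lf (bC ps) s)
    (hg : LGoodT N c) : GoodP ps := by
  obtain ⟨B, hB⟩ := exists_B hn
  obtain ⟨L, hL, hL2⟩ := hcont
  obtain ⟨L', hL', hL'2, hne⟩ := hg
  refine ⟨L, hL, hL2, fun h0 => hne ?_⟩
  have e : L' = fun s => L s * ∏ v ∈ B, (1 - bC ps v.asIdeal *
      (Ideal.absNorm v.asIdeal : ℂ) ^ (-s)) := by
    refine entire_eq hL' (hL.mul (differentiable_euler B _)) fun s hs => ?_
    rw [hL'2 s hs, Lf_tw h hc hB s hs, hL2 s hs]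
  rw [e]
  change L 1 * _ = 0
  rw [h0, zero_mul]

end

section
variable {N F : Type u} [Field N] [NumberField N] [Field F] [NumberField F] [Algebra N F]
  [Algebra K F] {W : WeierstrassCurve N} {W' : WeierstrassCurve F} {m n : Ideal (𝓞 F)}
  {ps : Ideal (𝓞 F) → 𝓞 K} {c : Ideal (𝓞 F) → ℂ}

omit [HC] in
theorem RB_N (hE : EulD W ps) {B : Finset (HeightOneSpectrum (𝓞 F))}
    {B' : Finset (HeightOneSpectrum (𝓞 N))}
    (hBB : ∀ w : HeightOneSpectrum (𝓞 F), w ∈ B ↔ w.under (𝓞 N) ∈ B') (s : ℂ) :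
    RB W B' s = ∏ w ∈ B, (1 - bC ps w.asIdeal * (Ideal.absNorm w.asIdeal : ℂ) ^ (-s)) := by
  classical
  rw [← Finset.prod_fiberwise_of_maps_to (s := B) (t := B') (g := fun w => w.under (𝓞 N))
    (fun w hw => (hBB w).1 hw), RB]
  refine Finset.prod_congr rfl fun v hv => ?_
  rw [loc_N hE v]
  obtain ⟨S, hS, hp⟩ := prod_over (F := F) v (fun w => 1 - bC ps w.asIdeal *
    (Ideal.absNorm w.asIdeal : ℂ) ^ (-s))
  have e1 : (B.filter fun w => w.under (𝓞 N) = v) = S := by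
    ext w
    rw [Finset.mem_filter, hS]
    constructor
    · exact fun h => h.2
    · intro h
      refine ⟨(hBB w).2 ?_, h⟩
      rw [h]
      exact hv
  rw [e1, hp]
  refine Finset.prod_congr rfl fun w _ => ?_
  have i0 : v.asIdeal.IsMaximal := v.isMaximal
  have i1 : w.1.asIdeal.IsMaximal := w.1.isMaximal
  have i2 : w.1.asIdeal.LiesOver v.asIdeal := ⟨w.2.symm⟩
  have h1 := Ideal.absNorm_pow_inertiaDeg v.asIdeal w.1.asIdeal
  rw [← h1, Nat.cast_pow, natCast_pow_cpow]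

/-- **The L-series over a field `N` which does not contain `K`, `F = N K`.** -/
theorem br_N (h : FDat F W' m ps) (hE : EulD W ps) (hn : n ≠ ⊥) (hc : TwD n ps c)
    (hst : ∀ w w' : HeightOneSpectrum (𝓞 F), w.under (𝓞 N) = w'.under (𝓞 N) →
      n ≤ w.asIdeal → n ≤ w'.asIdeal) {ℓ : ℕ} [Fact ℓ.Prime]
    (hl : ∀ w : HeightOneSpectrum (𝓞 F), n ≤ w.asIdeal → ¬ m ≤ w.asIdeal →
      (ℓ : 𝓞 F) ∉ w.asIdeal ∧ IsCoprime (ps w.asIdeal - 1) (ℓ : 𝓞 K)) :
    ∃ (R : ℂ → ℂ) (ρ : ℚ), Differentiable ℂ R ∧ (∀ s : ℂ, 2 < s.re → W.LSeries s * R s =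
      Lf (fun I => psbC F I * c I) s) ∧ R 1 = (ρ : ℂ) ∧
      ∀ A : ValuationSubring ℂ, Ab ℓ A → A.valuation (ρ : ℂ) = 1 := by
  classical
  obtain ⟨B, hB⟩ := exists_B hn
  obtain ⟨B', hB'⟩ : ∃ B' : Finset (HeightOneSpectrum (𝓞 N)),
      B' = B.image fun w => w.under (𝓞 N) := ⟨_, rfl⟩
  have hBB : ∀ w : HeightOneSpectrum (𝓞 F), w ∈ B ↔ w.under (𝓞 N) ∈ B' := by
    intro w
    rw [hB', Finset.mem_image]
    constructor
    · exact fun hw => ⟨w, hw, rfl⟩
    · rintro ⟨w', hw', e⟩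
      exact (hB w).2 (hst w' w e ((hB w').1 hw'))
  refine ⟨RB W B', rB W B', RB_diff W B', fun s hs => ?_, RB_one W B', fun A hA => ?_⟩
  · rw [LSeries_N' h hE s (by linarith), RB_N hE hBB s, Lf_tw h hc hB s hs]
  · rw [← RB_one, RB_N hE hBB 1, map_prod]
    exact Finset.prod_eq_one fun v hv => val_eul hA h v (hl v ((hB v).1 hv))

end

end Pool.Agent.Lib.MP_1a91b9_nuX.BR
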