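import Pool.Agent.Lib.MP_1a91b9_nuX.LG.Main
import Pool.Agent.Lib.MP_1a91b9_nuX.TC.Defs
import Pool.Agent.Lib.MP_1a91b9_nuT.PL.Val

/-!
# The primitive character of a form and the characters `ψbar_F c`

`TwD n ps c`: the complex conjugate of the primitive character `ps` of a form of the curve and `ψbar_F c` have the same
values at the places prime to `n`; `c` is a ray class function modulo `n`. The series of `ψbar_F c` is the series of `ps`
without the Euler factors at the places above `n`.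
-/

set_option autoImplicit false

namespace Pool.Agent.Lib.MP_1a91b9_nuX.BR

open NumberField IsDedekindDomain Pool.Agent.Lib.MP_1a91b9_nuT Pool.Agent.Lib.MP_1a91b9_nt
open Pool.Agent.Lib.MP_1a91b9_nuT.S4 (Lf compare_Lf differentiable_euler entire_eq val_integral
  val_eq_one_of_mul val_unit_add differentiable_conj_conj le_iff_not_coprime)
open Pool.Agent.Lib.MP_1a91b9_nuT.PL (Ab)
open Pool.Agent.Lib.MP_1a91b9_nuG (absNorm_coprime val_q)
open Pool.Agent.Lib.MP_1a91b9_nuX.PG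
open Pool.Agent.Lib.MP_1a91b9_nuX.PA (pC bC_eq isIntegral_pC pC_one pC_mul bC_one bC_mul pC_mul_bC
  norm_pC_le norm_bC_le bC_ne bC_bad)
open Pool.Agent.Lib.MP_1a91b9_nuX.AN (psbC psbC_one psbC_mul norm_psbC_mul_le)
open Pool.Agent.Lib.MP_1a91b9_nuX.TC (RC LGoodT)
open Pool.Agent.Lib.MP_1a91b9_nuX.LG

universe u

variable [CD] [HC] {F : Type u} [Field F] [NumberField F] [Algebra K F]

/-- `ψbar_F c` and the conjugate of `ps` have the same values at the places prime to `n` -/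
structure TwD (n : Ideal (𝓞 F)) (ps : Ideal (𝓞 F) → 𝓞 K) (c : Ideal (𝓞 F) → ℂ) : Prop where
  rc : RC n c
  eq : ∀ v : HeightOneSpectrum (𝓞 F), ¬ n ≤ v.asIdeal →
    bC ps v.asIdeal = psbC F v.asIdeal * c v.asIdeal

omit [CD] [HC] [Algebra K F] in
/-- the places above `n` -/
theorem exists_B {n : Ideal (𝓞 F)} (hn : n ≠ ⊥) :
    ∃ B : Finset (HeightOneSpectrum (𝓞 F)), ∀ v, v ∈ B ↔ n ≤ v.asIdeal := by
  have hBfin : {v : HeightOneSpectrum (𝓞 F) | n ≤ v.asIdeal}.Finite := by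
    refine (Ideal.finite_factors hn).subset fun v hv => ?_
    exact Ideal.dvd_iff_le.mpr hv
  refine ⟨hBfin.toFinset, fun v => ?_⟩
  rw [Set.Finite.mem_toFinset]
  exact Iff.rfl

section
variable {W : WeierstrassCurve F} {m n : Ideal (𝓞 F)} {ps : Ideal (𝓞 F) → 𝓞 K}
  {c : Ideal (𝓞 F) → ℂ}

/-- the series of `ψbar_F c` -/
theorem Lf_tw (h : FDat F W m ps) (hc : TwD n ps c) {B : Finset (HeightOneSpectrum (𝓞 F))}
    (hB : ∀ v, v ∈ B ↔ n ≤ v.asIdeal) (s : ℂ) (hs : 2 < s.re) :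
    Lf (fun I => psbC F I * c I) s = Lf (bC ps) s *
      ∏ v ∈ B, (1 - bC ps v.asIdeal * (Ideal.absNorm v.asIdeal : ℂ) ^ (-s)) := by
  have h1 := compare_Lf (fun I => psbC F I * c I) (bC ps)
    (by rw [psbC_one, hc.rc.one, mul_one])
    (fun I J => by rw [psbC_mul, hc.rc.mul]; ring)
    (fun I => norm_psbC_mul_le _ I (hc.rc.le I)) (bC_one h) (bC_mul h) (norm_bC_le h) B
    (fun v hv => (hc.eq v fun h2 => hv ((hB v).2 h2)).symm) s hs
  rw [← h1]
  have e : ∏ v ∈ B, (1 - psbC F v.asIdeal * c v.asIdeal *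
      (Ideal.absNorm v.asIdeal : ℂ) ^ (-s)) = 1 := by
    refine Finset.prod_eq_one fun v hv => ?_
    rw [hc.rc.place v ((hB v).1 hv), mul_zero, zero_mul, sub_zero]
  rw [e, mul_one]

omit [HC] in
/-- the Euler factor at `1` -/
theorem eul_at (h : FDat F W m ps) (v : HeightOneSpectrum (𝓞 F)) (hv : ¬ m ≤ v.asIdeal) :
    pC ps v.asIdeal ≠ 0 ∧ 1 - bC ps v.asIdeal * (Ideal.absNorm v.asIdeal : ℂ) ^ (-1 : ℂ) =
      (pC ps v.asIdeal - 1) / pC ps v.asIdeal := by
  have hcop : IsCoprime v.asIdeal m := by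
    by_contra h2
    exact hv ((le_iff_not_coprime m v).mpr h2)
  have h1 := pC_mul_bC h v.asIdeal hcop
  have hN : (Ideal.absNorm v.asIdeal : ℂ) ≠ 0 := by
    have := Ideal.absNorm_ne_zero_iff_mem_nonZeroDivisors.mpr
      (mem_nonZeroDivisors_iff_ne_zero.mpr v.ne_bot)
    exact_mod_cast this
  have h0 : pC ps v.asIdeal ≠ 0 := by
    intro h
    rw [h, zero_mul] at h1
    exact hN h1.symm
  have h2 : bC ps v.asIdeal ≠ 0 := by
    rw [bC_eq]
    exact (map_ne_zero _).mpr h0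
  refine ⟨h0, ?_⟩
  rw [Complex.cpow_neg_one, ← h1]
  field_simp

omit [HC] in
theorem eul_ne (h : FDat F W m ps) (v : HeightOneSpectrum (𝓞 F)) :
    1 - bC ps v.asIdeal * (Ideal.absNorm v.asIdeal : ℂ) ^ (-(1 : ℂ)) ≠ 0 := by
  intro h'
  have h1 : bC ps v.asIdeal * (Ideal.absNorm v.asIdeal : ℂ) ^ (-(1 : ℂ)) = 1 :=
    (sub_eq_zero.1 h').symm
  have hn : 1 < Ideal.absNorm v.asIdeal := by
    have h2 : Ideal.absNorm v.asIdeal ≠ 0 :=
      Ideal.absNorm_ne_zero_iff_mem_nonZeroDivisors.mpr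
        (mem_nonZeroDivisors_iff_ne_zero.mpr v.ne_bot)
    have h3 : Ideal.absNorm v.asIdeal ≠ 1 := fun h3 =>
      v.isPrime.ne_top (Ideal.absNorm_eq_one_iff.mp h3)
    omega
  have hn' : (1 : ℝ) < (Ideal.absNorm v.asIdeal : ℝ) := by exact_mod_cast hn
  have h2 := norm_bC_le h v.asIdeal
  have h3 : ‖bC ps v.asIdeal‖ * ((Ideal.absNorm v.asIdeal : ℝ))⁻¹ = 1 := by
    have h4 := congrArg norm h1
    rw [norm_mul, norm_one, Complex.cpow_neg_one, norm_inv, Complex.norm_natCast] at h4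
    exact h4
  have h4 : (Ideal.absNorm v.asIdeal : ℝ) ^ (1 / 2 : ℝ) < (Ideal.absNorm v.asIdeal : ℝ) := by
    calc (Ideal.absNorm v.asIdeal : ℝ) ^ (1 / 2 : ℝ) < (Ideal.absNorm v.asIdeal : ℝ) ^ (1 : ℝ) :=
          Real.rpow_lt_rpow_of_exponent_lt hn' (by norm_num)
      _ = _ := Real.rpow_one _
  have h5 : ‖bC ps v.asIdeal‖ = (Ideal.absNorm v.asIdeal : ℝ) := by
    have h6 : (Ideal.absNorm v.asIdeal : ℝ) ≠ 0 := by positivity
    field_simp at h3
    exact h3
  rw [h5] at h2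
  exact absurd h2 (not_le.2 h4)

omit [HC] in
/-- the value of the Euler factor at an admissible place -/
theorem val_eul {ℓ : ℕ} [hℓ : Fact ℓ.Prime] {A : ValuationSubring ℂ} (hA : Ab ℓ A)
    (h : FDat F W m ps) (v : HeightOneSpectrum (𝓞 F))
    (hv : ¬ m ≤ v.asIdeal → (ℓ : 𝓞 F) ∉ v.asIdeal ∧ IsCoprime (ps v.asIdeal - 1) (ℓ : 𝓞 K)) :
    A.valuation (1 - bC ps v.asIdeal * (Ideal.absNorm v.asIdeal : ℂ) ^ (-(1 : ℂ))) = 1 := by
  by_cases hm : m ≤ v.asIdeal
  · rw [bC_bad h v hm, zero_mul, sub_zero, map_one]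
  obtain ⟨hvl, ha⟩ := hv hm
  have hcop : IsCoprime v.asIdeal m := by
    by_contra h2
    exact hm ((le_iff_not_coprime m v).mpr h2)
  obtain ⟨h0, e⟩ := eul_at h v hm
  have hi : IsIntegral ℤ (pC ps v.asIdeal) := isIntegral_pC _ _
  have hib : IsIntegral ℤ (bC ps v.asIdeal) := hi.map (starRingEnd ℂ).toIntAlgHom
  have h5 : A.valuation (pC ps v.asIdeal) = 1 := by
    refine val_eq_one_of_mul A (val_integral A hi) (val_integral A hib) ?_
    rw [pC_mul_bC h v.asIdeal hcop]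
    exact hA.nat (absNorm_coprime v hvl)
  have h4 : A.valuation (pC ps v.asIdeal - 1) = 1 := by
    obtain ⟨a, b, hab⟩ := ha
    have hK : ∀ x : 𝓞 K, IsIntegral ℤ (embK (x : K)) := by
      intro x
      have h : IsIntegral ℤ (x : K) := RingOfIntegers.isIntegral_coe _
      exact h.map embK.toRingHom.toIntAlgHom
    have h6 : (pC ps v.asIdeal - 1) * embK (a : K) = 1 + -((ℓ : ℂ) * embK (b : K)) := by
      have h7 := congrArg (fun x : 𝓞 K => embK (x : K)) hab
      simp only [map_add, map_mul, map_sub, map_one, map_natCast] at h7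
      rw [pC]
      linear_combination h7
    refine val_eq_one_of_mul A (val_integral A (hi.sub isIntegral_one))
      (val_integral A (hK a)) ?_
    rw [h6]
    refine val_unit_add A (map_one _) ?_
    rw [Valuation.map_neg, map_mul]
    calc A.valuation (ℓ : ℂ) * _ ≤ A.valuation (ℓ : ℂ) * 1 :=
          mul_le_mul_right (val_integral A (hK b)) _
      _ < 1 := by rw [mul_one]; exact val_q A hA
  rw [e, map_div₀, h5, h4, div_one]

end

end Pool.Agent.Lib.MP_1a91b9_nuX.BR
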